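import Mathlib
import Pool.Agent.V11330.TG.Path
import Pool.Agent.V11330.TG.BinMon

/-!
Large d-separating sets and toric Gaussian DAG ideals.

A directed graph on `Fin n` is given by its edge relation `E`.
-/

set_option autoImplicit false

open Matrix Relation MvPolynomial

namespace Pool.Agent.Results.MP_3a69bf_ag.LargeDSep

variable {n : ℕ}

/-- `E` has no directed cycle. -/
def IsDAG (E : Fin n → Fin n → Prop) : Prop := ∀ v, ¬ TransGen E v v

/-- The Gaussian DAG model: the matrices `(I-Λ)⁻ᵀ Ω (I-Λ)⁻¹`, where `Λ` is a real matrix supported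
on the edges and `Ω` is a diagonal matrix with positive diagonal entries. -/
def Model (E : Fin n → Fin n → Prop) : Set (Matrix (Fin n) (Fin n) ℝ) :=
  {S | ∃ (L : Matrix (Fin n) (Fin n) ℝ) (ω : Fin n → ℝ), (∀ u v, ¬ E u v → L u v = 0) ∧
    (∀ v, 0 < ω v) ∧ S = ((1 - L)⁻¹)ᵀ * Matrix.diagonal ω * (1 - L)⁻¹}

/-- The polynomial ring in the variables `σ_ij`, `i ≤ j`. -/
abbrev R (n : ℕ) : Type := MvPolynomial {p : Fin n × Fin n // p.1 ≤ p.2} ℝ

/-- The vanishing ideal of the model. -/
noncomputable def IG (E : Fin n → Fin n → Prop) : Ideal (R n) where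
  carrier := {f | ∀ S ∈ Model E, MvPolynomial.eval (fun p => S p.1.1 p.1.2) f = 0}
  add_mem' := by
    intro a b ha hb S h
    rw [map_add, ha S h, hb S h, add_zero]
  zero_mem' := by
    intro S _
    exact map_zero _
  smul_mem' := by
    intro c x hx S h
    rw [smul_eq_mul, map_mul, hx S h, mul_zero]

/-- Prime ideals generated by polynomials with at most two terms. -/
def IsPrimeBinomial (I : Ideal (R n)) : Prop :=
  I.IsPrime ∧ ∃ B : Set (R n), (∀ b ∈ B, b.support.card ≤ 2) ∧ I = Ideal.span B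

/-- Kernels of algebra homomorphisms to a commutative monoid algebra `ℝ[A]` (for example a
polynomial ring or a Laurent polynomial ring) which map each variable to a term, i.e. to a scalar
multiple of an element of the monoid. -/
def IsMonomialKernel (I : Ideal (R n)) : Prop :=
  ∃ (A : Type) (_ : AddCommMonoid A) (ψ : R n →ₐ[ℝ] AddMonoidAlgebra ℝ A),
    (∀ s, ∃ (m : A) (a : ℝ), ψ (X s) = AddMonoidAlgebra.single m a) ∧ I = RingHom.ker ψ

/-- Toric ideals, in a wide sense. -/
def IsToric (I : Ideal (R n)) : Prop := IsPrimeBinomial I ∨ IsMonomialKernel I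

/-- `v 0, v 1, ..., v m` is a path: consecutive vertices are joined by an edge of any orientation
and no vertex is repeated. -/
def IsPath (E : Fin n → Fin n → Prop) (m : ℕ) (v : ℕ → Fin n) : Prop :=
  (∀ k < m, E (v k) (v (k + 1)) ∨ E (v (k + 1)) (v k)) ∧
    ∀ k ≤ m, ∀ l ≤ m, v k = v l → k = l

/-- The interior vertex `v k` of the path is a collider: both path edges at `v k` point into
`v k`. -/
def IsCollider (E : Fin n → Fin n → Prop) (v : ℕ → Fin n) (k : ℕ) : Prop :=
  E (v (k - 1)) (v k) ∧ E (v (k + 1)) (v k)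

/-- `C ⊆ [n] ∖ {i, j}` d-separates `i` and `j`: every path from `i` to `j` has an interior vertex
which is a non-collider in `C` or a collider such that neither it nor any of its descendants is
in `C`. -/
def DSeparates (E : Fin n → Fin n → Prop) (i j : Fin n) (C : Finset (Fin n)) : Prop :=
  i ∉ C ∧ j ∉ C ∧ ∀ (m : ℕ) (v : ℕ → Fin n), IsPath E m v → v 0 = i → v m = j →
    ∃ k, 0 < k ∧ k < m ∧ ((¬ IsCollider E v k ∧ v k ∈ C) ∨
      (IsCollider E v k ∧ ∀ d, ReflTransGen E (v k) d → d ∉ C))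

theorem pt_eq (L : Matrix (Fin n) (Fin n) ℝ) (ω : Fin n → ℝ) :
    Pool.Agent.V11330.TG.pt ℝ L ω =
      fun p => (((1 - L)⁻¹)ᵀ * Matrix.diagonal ω * (1 - L)⁻¹ : Matrix (Fin n) (Fin n) ℝ)
        p.1.1 p.1.2 := by
  funext p
  unfold Pool.Agent.V11330.TG.pt Pool.Agent.V11330.TG.covMat
  rw [RCLike.ofReal_real_eq_id, id]

theorem IG_eq (E : Fin n → Fin n → Prop) : IG E = Pool.Agent.V11330.TG.vanIdeal ℝ E := by
  ext f
  rw [Pool.Agent.V11330.TG.mem_vanIdeal]
  change (∀ S ∈ Model E, MvPolynomial.eval (fun p => S p.1.1 p.1.2) f = 0) ↔ _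
  constructor
  · intro h L ω hp
    rw [pt_eq]
    exact h _ ⟨L, ω, hp.1, hp.2, rfl⟩
  · rintro h S ⟨L, ω, h1, h2, rfl⟩
    have h3 := h L ω ⟨h1, h2⟩
    rw [pt_eq] at h3
    exact h3

theorem classProp_of_toric {E : Fin n → Fin n → Prop} (h : IsToric (IG E)) :
    Pool.Agent.V11330.TG.ClassProp (Pool.Agent.V11330.TG.vanIdeal ℝ E) := by
  rw [← IG_eq]
  rcases h with ⟨-, B, hB, h⟩ | ⟨A, hA, ψ, hψ, h⟩
  · rw [h]
    exact Pool.Agent.V11330.TG.classProp_span B hB
  · rw [h]
    exact Pool.Agent.V11330.TG.classProp_kerMon ψ hψ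

/-- If `G` is a DAG with two distinct non-adjacent vertices `i`, `j` such that every d-separating
set of `i` and `j` has at least two elements, then `I_G` is not toric. -/
theorem result : ∀ (n : ℕ) (E : Fin n → Fin n → Prop), IsDAG E →
    ∀ i j : Fin n, i ≠ j → ¬ E i j → ¬ E j i →
      (∀ C : Finset (Fin n), DSeparates E i j C → 2 ≤ C.card) → ¬ IsToric (IG E) := by
  intro n E hE i j hne hij hji hC ht
  obtain ⟨C, h1, h2⟩ := Pool.Agent.V11330.TG.exists_dSep' hE hne hij hji (classProp_of_toric ht)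
  have h3 := hC C h2
  omega

end Pool.Agent.Results.MP_3a69bf_ag.LargeDSep
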